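import Mathlib

set_option autoImplicit false

namespace Pool.Agent.Lib.MP_028983_lc

universe u

/-- An element of `I(κ)`: an ordinal `dom < κ⁺` together with an injective map from `dom`
(the set of ordinals below it) into `κ` (the set of ordinals below the initial ordinal of `κ`). -/
structure Inj (κ : Cardinal.{u}) where
  /-- the domain, an ordinal -/
  dom : Ordinal.{u}
  /-- the domain is below `κ⁺` -/
  dom_lt : dom < (Order.succ κ).ord
  /-- the map -/
  toFun : Set.Iio dom → Set.Iio κ.ord
  /-- the map is injective -/
  inj : Function.Injective toFun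

/-- The principle `Δ(κ)`: for every map `D` on `I(κ)` with `D f` a subset of `dom f` of
cardinality `< κ`, there is a `κ⁺`-sequence `F` in `I(κ)` with strictly increasing domains such
that the restrictions of `F α` to `D (F α)` agree wherever their domains overlap. -/
def DeltaPrinciple (κ : Cardinal.{u}) : Prop :=
  ∀ D : (f : Inj κ) → Set (Set.Iio f.dom),
    (∀ f : Inj κ, Cardinal.mk (D f) < Cardinal.lift.{u + 1} κ) →
    ∃ F : Set.Iio (Order.succ κ).ord → Inj κ,
      (∀ α β, α < β → (F α).dom < (F β).dom) ∧
      (∀ α β, ∀ x ∈ D (F α), ∀ y ∈ D (F β), x.1 = y.1 → (F α).toFun x = (F β).toFun y)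

end Pool.Agent.Lib.MP_028983_lc
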