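import Mathlib
import Pool.Agent.Lib.MP_028983_lc.Defs

set_option autoImplicit false

namespace Pool.Agent.Lib.MP_028983_lc

universe u

open Cardinal Ordinal Set

/-- Transfinite recursion producing a function on ordinals from its truncations. -/
theorem exists_rec (Φ : Ordinal.{u} → (Ordinal.{u} → Ordinal.{u}) → Ordinal.{u}) :
    ∃ T : Ordinal.{u} → Ordinal.{u}, ∀ i, T i = Φ i (fun j => if j < i then T j else 0) := by
  classical
  let T : Ordinal.{u} → Ordinal.{u} :=
    (wellFounded_lt (α := Ordinal.{u})).fix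
      (fun i prev => Φ i (fun j => if h : j < i then prev j h else 0))
  refine ⟨T, fun i => ?_⟩
  have h := (wellFounded_lt (α := Ordinal.{u})).fix_eq
      (C := fun _ => Ordinal.{u})
      (fun i prev => Φ i (fun j => if h : j < i then prev j h else 0)) i
  change T i = _ at h
  rw [h]
  congr 1

theorem sup_lt {κ : Cardinal.{u}} (hκ : ℵ₀ ≤ κ) {i : Ordinal.{u}}
    (hi : i < (Order.succ κ).ord) (T : Ordinal.{u} → Ordinal.{u})
    (hT : ∀ j < i, T j < (Order.succ κ).ord) :
    (⨆ j : Iio i, T j) < (Order.succ κ).ord := by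
  have hc := isRegular_succ hκ
  apply Ordinal.lift_iSup_lt_of_lt_cof
  · rw [← lift_cof, hc.cof_ord, Cardinal.mk_Iio_ordinal, Cardinal.lift_lift, Cardinal.lift_lt]
    exact lt_ord.1 hi
  · exact fun j => hT j.1 j.2

/-- A colouring with `κ` many disjoint columns, each able to hold any ordinal below `κ⁺`. -/
theorem exists_col {κ : Cardinal.{u}} (hκ : ℵ₀ ≤ κ) :
    ∃ c : Ordinal.{u} → Ordinal.{u} → Ordinal.{u} → Iio κ.ord,
      (∀ i i' τ τ' γ γ', i < κ.ord → i' < κ.ord → c i τ γ = c i' τ' γ' → i = i') ∧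
      (∀ i τ γ γ', τ < (Order.succ κ).ord → γ < τ → γ' < τ → c i τ γ = c i τ γ' → γ = γ') := by
  classical
  have h0 : (0 : Ordinal.{u}) < κ.ord := by
    rw [lt_ord, card_zero]; exact aleph0_pos.trans_le hκ
  have hK : #(Iio κ.ord × Iio κ.ord) = #(Iio κ.ord) := by
    rw [mk_prod, Cardinal.lift_id, Cardinal.mk_Iio_ordinal, card_ord]
    exact mul_eq_self (by simpa using hκ)
  obtain ⟨p⟩ := Cardinal.eq.1 hK
  have he : ∀ τ : Ordinal.{u}, ∃ e : Ordinal.{u} → Iio κ.ord,
      τ < (Order.succ κ).ord → ∀ γ γ', γ < τ → γ' < τ → e γ = e γ' → γ = γ' := by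
    intro τ
    by_cases hτ : τ < (Order.succ κ).ord
    · have : #(Iio τ) ≤ #(Iio κ.ord) := by
        rw [Cardinal.mk_Iio_ordinal, Cardinal.mk_Iio_ordinal, card_ord, Cardinal.lift_le]
        exact Order.lt_succ_iff.1 (lt_ord.1 hτ)
      obtain ⟨e⟩ := Cardinal.le_def _ _ |>.1 this
      refine ⟨fun γ => if h : γ < τ then e ⟨γ, h⟩ else ⟨0, h0⟩, fun _ γ γ' h h' hh => ?_⟩
      simp only [h, h', dif_pos] at hh
      exact congrArg Subtype.val (e.injective hh)
    · exact ⟨fun _ => ⟨0, h0⟩, fun h => absurd h hτ⟩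
  choose e he using he
  refine ⟨fun i τ γ => p (if h : i < κ.ord then ⟨i, h⟩ else ⟨0, h0⟩, e τ γ), ?_, ?_⟩
  · intro i i' τ τ' γ γ' h h' hh
    have := congrArg Prod.fst (p.injective hh)
    simp only [h, h', dif_pos] at this
    exact congrArg Subtype.val this
  · intro i τ γ γ' hτ h h' hh
    exact he τ hτ γ γ' h h' (congrArg Prod.snd (p.injective hh))

/-- The element of `I(κ)` obtained by restricting a total function. -/
def mkInj {κ : Cardinal.{u}} (τ : Ordinal.{u}) (G : Ordinal.{u} → Iio κ.ord)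
    (h : τ < (Order.succ κ).ord ∧ InjOn G (Iio τ)) : Inj κ where
  dom := τ
  dom_lt := h.1
  toFun := fun x => G x.1
  inj := fun x y hxy => Subtype.ext (h.2 x.2 y.2 hxy)

theorem mkInj_congr {κ : Cardinal.{u}} (τ : Ordinal.{u}) (G G' : Ordinal.{u} → Iio κ.ord)
    (h : τ < (Order.succ κ).ord ∧ InjOn G (Iio τ))
    (h' : τ < (Order.succ κ).ord ∧ InjOn G' (Iio τ)) (hh : ∀ x < τ, G x = G' x) :
    mkInj τ G h = mkInj τ G' h' := by
  unfold mkInj
  congr 1
  funext x
  exact hh x.1 x.2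

/-- `f` extends `g`. -/
def Ext {κ : Cardinal.{u}} (g f : Inj κ) : Prop :=
  ∀ (x : Iio g.dom) (y : Iio f.dom), x.1 = y.1 → g.toFun x = f.toFun y

/-- The key lemma: some `g` has extensions of arbitrarily long domain whose `D`-set avoids the
interval between `dom g` and the prescribed bound. -/
theorem exists_good {κ : Cardinal.{u}} (hκ : ℵ₀ ≤ κ) (D : (f : Inj κ) → Set (Iio f.dom))
    (hD : ∀ f : Inj κ, #(D f) < Cardinal.lift.{u + 1} κ) :
    ∃ g : Inj κ, ∀ b < (Order.succ κ).ord, ∃ f : Inj κ, Ext g f ∧ b ≤ f.dom ∧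
      ∀ x ∈ D f, x.1 < b → x.1 < g.dom := by
  classical
  by_contra hcon
  push Not at hcon
  choose b hb hb' using hcon
  obtain ⟨c, hc1, hc2⟩ := exists_col hκ
  have hlim : Order.IsSuccLimit (Order.succ κ).ord :=
    isSuccLimit_ord (hκ.trans (Order.le_succ κ))
  have hκlt : κ.ord < (Order.succ κ).ord := ord_lt_ord.2 (Order.lt_succ κ)
  -- index of the block containing `γ`
  let idx : (Ordinal.{u} → Ordinal.{u}) → Ordinal.{u} → Ordinal.{u} :=
    fun T γ => sInf {i | γ < T i}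
  let G : (Ordinal.{u} → Ordinal.{u}) → Ordinal.{u} → Iio κ.ord :=
    fun T γ => c (idx T γ) (T (idx T γ)) γ
  let b' : Ordinal.{u} → (Ordinal.{u} → Iio κ.ord) → Ordinal.{u} := fun τ g =>
    if h : τ < (Order.succ κ).ord ∧ InjOn g (Iio τ) then b (mkInj τ g h) else 0
  have hb'lt : ∀ τ g, b' τ g < (Order.succ κ).ord := by
    intro τ g
    simp only [b']
    split_ifs with h
    · exact hb _
    · exact hlim.pos
  obtain ⟨T, hT⟩ := exists_rec (fun i T =>
    max (⨆ j : Iio i, T j) (b' (⨆ j : Iio i, T j) (G T)))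
  let σ : Ordinal.{u} → Ordinal.{u} := fun i => ⨆ j : Iio i, T j
  have hσ : ∀ i, (⨆ j : Iio i, (fun j => if j < i then T j else 0) j.1) = σ i := by
    intro i
    simp only [σ]
    congr 1
    funext j
    exact if_pos j.2
  have hidx : ∀ i γ, γ < σ i → idx T γ < i ∧ γ < T (idx T γ) := by
    intro i γ hγ
    obtain ⟨j, hj⟩ := (Ordinal.lt_iSup_iff).1 hγ
    have hmem : j.1 ∈ {i | γ < T i} := hj
    exact ⟨(csInf_le' hmem).trans_lt j.2, csInf_mem ⟨_, hmem⟩⟩
  have hGtr : ∀ i γ, γ < σ i → G (fun j => if j < i then T j else 0) γ = G T γ := by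
    intro i γ hγ
    obtain ⟨h1, h2⟩ := hidx i γ hγ
    have : idx (fun j => if j < i then T j else 0) γ = idx T γ := by
      apply le_antisymm
      · apply csInf_le'
        show γ < if idx T γ < i then T (idx T γ) else 0
        rw [if_pos h1]; exact h2
      · apply le_csInf
        · refine ⟨idx T γ, ?_⟩
          show γ < if idx T γ < i then T (idx T γ) else 0
          rw [if_pos h1]; exact h2
        · intro j hj
          change γ < if j < i then T j else 0 at hj
          split_ifs at hj with hji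
          · exact csInf_le' hj
          · exact absurd hj (not_lt.2 bot_le)
    simp only [G, this, if_pos h1]
  have hTlt : ∀ i, i < (Order.succ κ).ord → T i < (Order.succ κ).ord := by
    intro i
    induction i using WellFoundedLT.induction with
    | ind i IH =>
      intro hi
      rw [hT i, hσ]
      exact max_lt (sup_lt hκ hi T (fun j hj => IH j hj (hj.trans hi))) (hb'lt _ _)
  have hσlt : ∀ i, i ≤ κ.ord → σ i < (Order.succ κ).ord := fun i hi =>
    sup_lt hκ (hi.trans_lt hκlt) T (fun j hj => hTlt j ((hj.trans_le hi).trans hκlt))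
  have hσmono : ∀ i i', i ≤ i' → σ i ≤ σ i' := by
    intro i i' h
    apply Ordinal.iSup_le
    intro j
    exact Ordinal.le_iSup (fun j : Iio i' => T j) ⟨j.1, j.2.trans_le h⟩
  have hTσ : ∀ i i', i < i' → T i ≤ σ i' := fun i i' h =>
    Ordinal.le_iSup (fun j : Iio i' => T j) ⟨i, h⟩
  have hinj : InjOn (G T) (Iio (σ κ.ord)) := by
    intro γ hγ γ' hγ' h
    obtain ⟨h1, h2⟩ := hidx _ γ hγ
    obtain ⟨h1', h2'⟩ := hidx _ γ' hγ'
    have e := hc1 _ _ _ _ _ _ h1 h1' h
    simp only [G] at h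
    rw [← e] at h h2'
    exact hc2 _ _ _ _ (hTlt _ (h1.trans hκlt)) h2 h2' h
  have hinj' : ∀ i, i ≤ κ.ord → σ i < (Order.succ κ).ord ∧ InjOn (G T) (Iio (σ i)) :=
    fun i hi => ⟨hσlt i hi, hinj.mono (Iio_subset_Iio (hσmono _ _ hi))⟩
  have hbT : ∀ i (hi : i ≤ κ.ord), b (mkInj (σ i) (G T) (hinj' i hi)) ≤ T i := by
    intro i hi
    have h' : σ i < (Order.succ κ).ord ∧
        InjOn (G (fun j => if j < i then T j else 0)) (Iio (σ i)) :=
      ⟨hσlt i hi, (hinj' i hi).2.congr (fun γ hγ => (hGtr i γ hγ).symm)⟩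
    conv_rhs => rw [hT i, hσ]
    refine le_trans (le_of_eq ?_) (le_max_right _ _)
    simp only [b']
    rw [dif_pos h', mkInj_congr _ _ _ h' (hinj' i hi) (hGtr i)]
  let f : Inj κ := mkInj (σ κ.ord) (G T) (hinj' _ le_rfl)
  have key : ∀ i : Iio κ.ord, ∃ x ∈ D f, σ i ≤ x.1 ∧ x.1 < T i := by
    intro i
    have hi : i.1 ≤ κ.ord := le_of_lt i.2
    obtain ⟨x, hx, hx1, hx2⟩ := hb' (mkInj (σ i) (G T) (hinj' i hi)) f
      (fun x y hxy => by
        change G T x.1 = G T y.1
        rw [hxy])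
      ((hbT i hi).trans (hTσ _ _ i.2))
    exact ⟨x, hx, hx2, hx1.trans_le (hbT i hi)⟩
  choose x hx hx1 hx2 using key
  have hxinj : Function.Injective (fun i : Iio κ.ord => (⟨x i, hx i⟩ : D f)) := by
    intro i j hij
    have hij' : (x i).1 = (x j).1 := congrArg (fun z : D f => z.1.1) hij
    rcases lt_trichotomy i.1 j.1 with h | h | h
    · exact absurd ((hx2 i).trans_le ((hTσ _ _ h).trans (hx1 j))) (by rw [hij']; exact lt_irrefl _)
    · exact Subtype.ext h
    · exact absurd ((hx2 j).trans_le ((hTσ _ _ h).trans (hx1 i))) (by rw [hij']; exact lt_irrefl _)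
  have hle := Cardinal.mk_le_of_injective hxinj
  rw [Cardinal.mk_Iio_ordinal, card_ord] at hle
  exact absurd (hD f) (not_lt.2 hle)

theorem deltaPrinciple {κ : Cardinal.{u}} (hκ : ℵ₀ ≤ κ) : DeltaPrinciple κ := by
  classical
  intro D hD
  obtain ⟨g, hg⟩ := exists_good hκ D hD
  have hlim : Order.IsSuccLimit (Order.succ κ).ord :=
    isSuccLimit_ord (hκ.trans (Order.le_succ κ))
  have hg' : ∀ b : Ordinal.{u}, ∃ f : Inj κ, b < (Order.succ κ).ord → (Ext g f ∧ b ≤ f.dom ∧
      ∀ x ∈ D f, x.1 < b → x.1 < g.dom) := by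
    intro b
    by_cases hb : b < (Order.succ κ).ord
    · obtain ⟨f, hf⟩ := hg b hb
      exact ⟨f, fun _ => hf⟩
    · exact ⟨g, fun h => absurd h hb⟩
  choose ch hch using hg'
  obtain ⟨T, hT⟩ := exists_rec (fun i T => (ch (Order.succ (⨆ j : Iio i, T j))).dom)
  let σ : Ordinal.{u} → Ordinal.{u} := fun i => Order.succ (⨆ j : Iio i, T j)
  have hT' : ∀ i, T i = (ch (σ i)).dom := by
    intro i
    rw [hT i]
    simp only [σ]
    congr 4
    funext j
    exact if_pos j.2
  have hTlt : ∀ i, T i < (Order.succ κ).ord := fun i => by rw [hT']; exact (ch _).dom_lt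
  have hσlt : ∀ i, i < (Order.succ κ).ord → σ i < (Order.succ κ).ord := fun i hi =>
    hlim.succ_lt (sup_lt hκ hi T (fun j _ => hTlt j))
  have hTσ : ∀ i i', i < i' → T i < σ i' := fun i i' h =>
    Order.lt_succ_of_le (Ordinal.le_iSup (fun j : Iio i' => T j) ⟨i, h⟩)
  have main : ∀ α β : Iio (Order.succ κ).ord, α < β → ∀ x ∈ D (ch (σ α)), ∀ y ∈ D (ch (σ β)),
      x.1 = y.1 → (ch (σ α)).toFun x = (ch (σ β)).toFun y := by
    intro α β h x _ y hy hxy
    have h1 : y.1 < σ β := by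
      rw [← hxy]
      refine lt_trans ?_ (hTσ α β h)
      rw [hT']; exact x.2
    have h2 : y.1 < g.dom := (hch _ (hσlt _ β.2)).2.2 y hy h1
    rw [← (hch _ (hσlt _ α.2)).1 ⟨y.1, h2⟩ x hxy.symm, (hch _ (hσlt _ β.2)).1 ⟨y.1, h2⟩ y rfl]
  refine ⟨fun α => ch (σ α), fun α β h => ?_, fun α β x hx y hy hxy => ?_⟩
  · have := hTσ α β h
    rw [hT'] at this
    exact this.trans_le (hch _ (hσlt _ β.2)).2.1
  · rcases lt_trichotomy α β with h | h | h
    · exact main α β h x hx y hy hxy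
    · subst h
      rw [Subtype.ext hxy]
    · exact (main β α h y hy x hx hxy.symm).symm

end Pool.Agent.Lib.MP_028983_lc
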