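import Mathlib
import Pool.Agent.Lib.MP_028983_lc.Main

/-! The two earlier hand-ins (statements about the cardinals of the ambient theory), kept here
after they were replaced by the statements on formal provability from ZFC. -/

namespace Pool.Agent.Lib.MP_028983_lc.Ambient

universe u

/-- The weak Delta-system principle holds for every infinite cardinal. -/
theorem deltaAll : ∀ κ : Cardinal.{u}, Cardinal.aleph0 ≤ κ →
    Pool.Agent.Lib.MP_028983_lc.DeltaPrinciple κ :=
  fun _ hκ => Pool.Agent.Lib.MP_028983_lc.deltaPrinciple hκ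

/-- There is an infinite cardinal `κ` with `κ ^ (< κ) > κ` for which the weak Delta-system
principle holds. -/
theorem notNecessary : ∃ κ : Cardinal.{u}, Cardinal.aleph0 ≤ κ ∧ κ < Cardinal.powerlt κ κ ∧
    Pool.Agent.Lib.MP_028983_lc.DeltaPrinciple κ := by
  have hs := Cardinal.isSingular_aleph_omega0.{u}
  refine ⟨Cardinal.aleph Ordinal.omega0, hs.aleph0_le, ?_,
    Pool.Agent.Lib.MP_028983_lc.deltaPrinciple hs.aleph0_le⟩
  exact (Cardinal.lt_power_cof_ord hs.aleph0_le).trans_le (Cardinal.le_powerlt _ hs.cof_ord_lt)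

end Pool.Agent.Lib.MP_028983_lc.Ambient
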