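import Pool.Agent.Lib.MP_028983_lc.Defs

namespace Pool.Agent.Lib.MP_028983_lc

universe u

/-- The injective form of the principle, for sets `D f` of cardinality `< μ`: the union of the
restrictions of `F α` to `D (F α)` is an injective function. -/
def InjDelta (κ μ : Cardinal.{u}) : Prop :=
  ∀ D : (f : Inj κ) → Set (Set.Iio f.dom),
    (∀ f : Inj κ, Cardinal.mk (D f) < Cardinal.lift.{u + 1} μ) →
    ∃ F : Set.Iio (Order.succ κ).ord → Inj κ,
      (∀ α β, α < β → (F α).dom < (F β).dom) ∧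
      (∀ α β, ∀ x ∈ D (F α), ∀ y ∈ D (F β), x.1 = y.1 ↔ (F α).toFun x = (F β).toFun y)

/-- The stem form: one `g` is extended, at a stationary set of domains, by some `f` with `D f`
inside the domain of `g`. -/
def StemDelta (κ μ : Cardinal.{u}) : Prop :=
  ∀ D : (f : Inj κ) → Set (Set.Iio f.dom),
    (∀ f : Inj κ, Cardinal.mk (D f) < Cardinal.lift.{u + 1} μ) →
    ∃ g : Inj κ, IsStationary {α : Set.Iio (Order.succ κ).ord | ∃ f : Inj κ, f.dom = α.1 ∧
      g.dom ≤ f.dom ∧ (∀ x y, x.1 = y.1 → g.toFun x = f.toFun y) ∧ ∀ x ∈ D f, x.1 < g.dom}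

end Pool.Agent.Lib.MP_028983_lc
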