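import Pool.Agent.Lib.MP_028983_lc.Main
import Pool.Agent.Lib.MP_028983_lc.InjDefs

/-! The injective form of the principle. -/

namespace Pool.Agent.Lib.MP_028983_lc

universe u

open Cardinal Ordinal Set

/-- A continuous chain of injections that passes prescribed bounds. -/
theorem inj_chain {κ : Cardinal.{u}} (hκ : ℵ₀ ≤ κ) (b : Inj κ → Ordinal.{u})
    (hb : ∀ g, b g < (Order.succ κ).ord) :
    ∃ (σ : Ordinal.{u} → Ordinal.{u}) (G : Ordinal.{u} → Iio κ.ord)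
      (h : ∀ i, i ≤ κ.ord → σ i < (Order.succ κ).ord ∧ InjOn G (Iio (σ i))), Monotone σ ∧
      (∀ i (hi : i ≤ κ.ord) i', i < i' → b (mkInj (σ i) G (h i hi)) ≤ σ i') ∧
      ∀ i γ, γ < σ i → ∃ j < i, γ < σ (j + 1) := by
  classical
  obtain ⟨c, hc1, hc2⟩ := exists_col hκ
  have hlim : Order.IsSuccLimit (Order.succ κ).ord :=
    isSuccLimit_ord (hκ.trans (Order.le_succ κ))
  have hκlt : κ.ord < (Order.succ κ).ord := ord_lt_ord.2 (Order.lt_succ κ)
  -- index of the block containing `γ`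
  let idx : (Ordinal.{u} → Ordinal.{u}) → Ordinal.{u} → Ordinal.{u} :=
    fun T γ => sInf {i | γ < T i}
  let G : (Ordinal.{u} → Ordinal.{u}) → Ordinal.{u} → Iio κ.ord :=
    fun T γ => c (idx T γ) (T (idx T γ)) γ
  let b' : Ordinal.{u} → (Ordinal.{u} → Iio κ.ord) → Ordinal.{u} := fun τ g =>
    if h : τ < (Order.succ κ).ord ∧ InjOn g (Iio τ) then b (mkInj τ g h) else 0
  have hb'lt : ∀ τ g, b' τ g < (Order.succ κ).ord := by
    intro τ g
    simp only [b']
    split_ifs with h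
    · exact hb _
    · exact hlim.pos
  obtain ⟨T, hT⟩ := exists_rec (fun i T =>
    max (⨆ j : Iio i, T j) (b' (⨆ j : Iio i, T j) (G T)))
  let σ : Ordinal.{u} → Ordinal.{u} := fun i => ⨆ j : Iio i, T j
  have hσ : ∀ i, (⨆ j : Iio i, (fun j => if j < i then T j else 0) j.1) = σ i := by
    intro i
    simp only [σ]
    congr 1
    funext j
    exact if_pos j.2
  have hidx : ∀ i γ, γ < σ i → idx T γ < i ∧ γ < T (idx T γ) := by
    intro i γ hγ
    obtain ⟨j, hj⟩ := (Ordinal.lt_iSup_iff).1 hγ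
    have hmem : j.1 ∈ {i | γ < T i} := hj
    exact ⟨(csInf_le' hmem).trans_lt j.2, csInf_mem ⟨_, hmem⟩⟩
  have hGtr : ∀ i γ, γ < σ i → G (fun j => if j < i then T j else 0) γ = G T γ := by
    intro i γ hγ
    obtain ⟨h1, h2⟩ := hidx i γ hγ
    have : idx (fun j => if j < i then T j else 0) γ = idx T γ := by
      apply le_antisymm
      · apply csInf_le'
        show γ < if idx T γ < i then T (idx T γ) else 0
        rw [if_pos h1]; exact h2
      · apply le_csInf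
        · refine ⟨idx T γ, ?_⟩
          show γ < if idx T γ < i then T (idx T γ) else 0
          rw [if_pos h1]; exact h2
        · intro j hj
          change γ < if j < i then T j else 0 at hj
          split_ifs at hj with hji
          · exact csInf_le' hj
          · exact absurd hj (not_lt.2 bot_le)
    simp only [G, this, if_pos h1]
  have hTlt : ∀ i, i < (Order.succ κ).ord → T i < (Order.succ κ).ord := by
    intro i
    induction i using WellFoundedLT.induction with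
    | ind i IH =>
      intro hi
      rw [hT i, hσ]
      exact max_lt (sup_lt hκ hi T (fun j hj => IH j hj (hj.trans hi))) (hb'lt _ _)
  have hσlt : ∀ i, i ≤ κ.ord → σ i < (Order.succ κ).ord := fun i hi =>
    sup_lt hκ (hi.trans_lt hκlt) T (fun j hj => hTlt j ((hj.trans_le hi).trans hκlt))
  have hσmono : ∀ i i', i ≤ i' → σ i ≤ σ i' := by
    intro i i' h
    apply Ordinal.iSup_le
    intro j
    exact Ordinal.le_iSup (fun j : Iio i' => T j) ⟨j.1, j.2.trans_le h⟩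
  have hTσ : ∀ i i', i < i' → T i ≤ σ i' := fun i i' h =>
    Ordinal.le_iSup (fun j : Iio i' => T j) ⟨i, h⟩
  have hinj : InjOn (G T) (Iio (σ κ.ord)) := by
    intro γ hγ γ' hγ' h
    obtain ⟨h1, h2⟩ := hidx _ γ hγ
    obtain ⟨h1', h2'⟩ := hidx _ γ' hγ'
    have e := hc1 _ _ _ _ _ _ h1 h1' h
    simp only [G] at h
    rw [← e] at h h2'
    exact hc2 _ _ _ _ (hTlt _ (h1.trans hκlt)) h2 h2' h
  have hinj' : ∀ i, i ≤ κ.ord → σ i < (Order.succ κ).ord ∧ InjOn (G T) (Iio (σ i)) :=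
    fun i hi => ⟨hσlt i hi, hinj.mono (Iio_subset_Iio (hσmono _ _ hi))⟩
  have hbT : ∀ i (hi : i ≤ κ.ord), b (mkInj (σ i) (G T) (hinj' i hi)) ≤ T i := by
    intro i hi
    have h' : σ i < (Order.succ κ).ord ∧
        InjOn (G (fun j => if j < i then T j else 0)) (Iio (σ i)) :=
      ⟨hσlt i hi, (hinj' i hi).2.congr (fun γ hγ => (hGtr i γ hγ).symm)⟩
    conv_rhs => rw [hT i, hσ]
    refine le_trans (le_of_eq ?_) (le_max_right _ _)
    simp only [b']
    rw [dif_pos h', mkInj_congr _ _ _ h' (hinj' i hi) (hGtr i)]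
  exact ⟨σ, G T, hinj', hσmono, fun i hi i' h => (hbT i hi).trans (hTσ _ _ h),
    fun i γ h => ⟨_, (hidx i γ h).1, (hidx i γ h).2.trans_le (hTσ _ _ (lt_add_one _))⟩⟩

/-- An initial segment. -/
def Inj.cut {κ : Cardinal.{u}} (g : Inj κ) (β : Iic g.dom) : Inj κ where
  dom := β.1
  dom_lt := β.2.trans_lt g.dom_lt
  toFun x := g.toFun ⟨x.1, mem_Iio.2 (lt_of_lt_of_le x.2 β.2)⟩
  inj _ _ h := Subtype.ext (congrArg Subtype.val (g.inj h) :)

theorem stemDelta_of {κ μ l : Cardinal.{u}} (hl : l.IsRegular) (hμ : μ ≤ l) (hκ : l ≤ κ) :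
    StemDelta κ μ := by
  intro D hD
  by_contra! hcon
  choose C hC hd using fun g => not_isStationary_iff.1 (hcon g)
  choose nx h4 h5 using fun g => (hC g).isCofinal
  have hκ' := hl.aleph0_le.trans hκ
  obtain ⟨σ, G, h, h1, h2, h3⟩ := inj_chain hκ'
    (fun g => ⨆ β : Iic g.dom, (nx (g.cut β) ⟨_, g.dom_lt⟩).1) fun g =>
      Ordinal.lift_iSup_lt_of_lt_cof (by
        rw [← lift_cof, (isRegular_succ hκ').cof_ord, ← Order.Iio_succ,
          Cardinal.mk_Iio_ordinal, Cardinal.lift_lift, Cardinal.lift_lt]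
        exact lt_ord.1 ((isSuccLimit_ord (hκ'.trans (Order.le_succ κ))).succ_lt g.dom_lt))
      fun β => (nx _ _).2
  have hlim := isSuccLimit_ord hl.aleph0_le
  have hle := ord_le_ord.2 hκ
  let f : Inj κ := mkInj (σ l.ord) G (h _ hle)
  choose j hj hj' using fun x : D f => h3 l.ord x.1.1 x.1.2
  have k : (⨆ x, j x + 1) < l.ord := Ordinal.lift_iSup_lt_of_lt_cof
    (by rw [← lift_cof, hl.cof_ord, Cardinal.lift_id'.{u, u + 1}]
        exact (hD f).trans_le (Cardinal.lift_le.2 hμ))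
    fun x => hlim.add_one_lt (hj x)
  have : Small.{u} (D f) := small_subtype _ _
  have k1 : ∀ x, j x + 1 ≤ ⨆ x, j x + 1 := Ordinal.le_iSup fun x => j x + 1
  generalize (⨆ x, j x + 1) = i at k k1
  let g : Inj κ := mkInj _ G (h _ (k.le.trans hle))
  let p : Ico i l.ord → Iio (Order.succ κ).ord := fun t =>
    nx g ⟨σ t, (h _ (t.2.2.le.trans hle)).1⟩
  refine (disjoint_left.1 (hd g) : ∀ ⦃a⦄, _ → _) (a := ⟨_, f.dom_lt⟩) ⟨f, rfl, h1 k.le, fun x y e => congrArg G e,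
    fun x hx => (hj' ⟨x, hx⟩).trans_le (h1 (k1 _))⟩ ((hC g).isLUB_mem (t := range p)
      (range_subset_iff.2 fun t => h4 _ _) ⟨_, ⟨i, le_rfl, k⟩, rfl⟩ (And.intro ?_ fun w hw => ?_))
  · rintro _ ⟨t, rfl⟩
    exact (Ordinal.le_iSup (fun β : Iic (σ t) => (nx ((mkInj (σ t) G
      (h _ (t.2.2.le.trans hle))).cut β) ⟨_, (h _ (t.2.2.le.trans hle)).1⟩).1)
        ⟨σ i, h1 t.2.1⟩).trans (h2 _ (t.2.2.le.trans hle) _ t.2.2)
  · refine le_of_forall_lt (α := Ordinal.{u}) fun γ hγ => ?_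
    obtain ⟨s, k2, k3⟩ := h3 _ γ hγ
    exact k3.trans_le ((h1 (le_max_right i _)).trans ((h5 g _).trans
      (hw ⟨⟨max i (s + 1), le_max_left _ _, max_lt k (hlim.add_one_lt k2)⟩, rfl⟩) :))

theorem StemDelta.inj {κ μ : Cardinal.{u}} (hκ : ℵ₀ ≤ κ) (h : StemDelta κ μ) : InjDelta κ μ := by
  classical
  intro D hD
  obtain ⟨g, hs⟩ := h D hD
  have hg : ∀ b < (Order.succ κ).ord, ∃ f : Inj κ, Ext g f ∧ b ≤ f.dom ∧
      ∀ x ∈ D f, x.1 < g.dom := fun b hb => by
    obtain ⟨a, ⟨f, k1, -, k2, k3⟩, k4⟩ := hs (t := Ici ⟨b, hb⟩) ⟨(isUpperSet_Ici _).dirSupClosed,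
      fun a => ⟨max a ⟨b, hb⟩, mem_Ici.2 (le_max_right _ _), le_max_left _ _⟩⟩
    exact ⟨f, k2, k1 ▸ k4, k3⟩
  have hlim : Order.IsSuccLimit (Order.succ κ).ord :=
    isSuccLimit_ord (hκ.trans (Order.le_succ κ))
  have hg' : ∀ b : Ordinal.{u}, ∃ f : Inj κ, b < (Order.succ κ).ord → (Ext g f ∧ b ≤ f.dom ∧
      ∀ x ∈ D f, x.1 < g.dom) := fun b => by
    by_cases hb : b < (Order.succ κ).ord
    · exact (hg b hb).imp fun f hf _ => hf
    · exact ⟨g, fun h => absurd h hb⟩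
  choose ch hch using hg'
  obtain ⟨T, hT⟩ := exists_rec (fun i T => (ch (Order.succ (⨆ j : Iio i, T j))).dom)
  let σ : Ordinal.{u} → Ordinal.{u} := fun i => Order.succ (⨆ j : Iio i, T j)
  have hT' : ∀ i, T i = (ch (σ i)).dom := by
    intro i
    rw [hT i]
    simp only [σ]
    congr 4
    funext j
    exact if_pos j.2
  have hσlt : ∀ i : Iio (Order.succ κ).ord, σ i < (Order.succ κ).ord := fun i =>
    hlim.succ_lt (sup_lt hκ i.2 T fun j _ => by rw [hT']; exact (ch _).dom_lt)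
  refine ⟨fun α => ch (σ α), fun α β h => ?_, fun α β x hx y hy => ?_⟩
  · exact (hT' α ▸ Order.lt_succ_of_le (Ordinal.le_iSup (fun j : Iio β.1 => T j) ⟨α, h⟩)).trans_le
      (hch _ (hσlt β)).2.1
  · rw [← (hch _ (hσlt α)).1 ⟨x.1, (hch _ (hσlt α)).2.2 x hx⟩ x rfl,
      ← (hch _ (hσlt β)).1 ⟨y.1, (hch _ (hσlt β)).2.2 y hy⟩ y rfl, g.inj.eq_iff, Subtype.mk.injEq]

theorem of_injDelta {κ μ : Cardinal.{u}} (hκ : ℵ₀ ≤ κ) (h : InjDelta κ μ) :
    ∃ l : Cardinal.{u}, l.IsRegular ∧ μ ≤ l ∧ l ≤ κ := by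
  by_contra! hn
  have hc : ∀ o < (Order.succ κ).ord, o.cof < μ := fun o ho => by
    by_cases k : Order.IsSuccLimit o
    · exact not_le.1 fun e => (hn _ (isRegular_cof k) e).not_ge
        ((cof_le_card o).trans (Order.lt_succ_iff.1 (lt_ord.1 ho)))
    · exact ((not_lt.1 (mt one_lt_cof_iff.1 k)).trans_lt one_lt_aleph0).trans
        (not_le.1 fun e => (hn _ isRegular_aleph0 e).not_ge hκ)
  choose D hD hD' using fun f : Inj κ => Order.exists_cof_eq (Iio f.dom)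
  obtain ⟨F, h1, h2⟩ := h D fun f => by
    rw [hD', Ordinal.cof_Iio, ← lift_cof, Cardinal.lift_lt]
    exact hc _ f.dom_lt
  have hlim : Order.IsSuccLimit (Order.succ κ).ord :=
    isSuccLimit_ord (hκ.trans (Order.le_succ κ))
  let U : Set Ordinal.{u} := {γ | ∃ α, ∃ x ∈ D (F α), x.1 = γ}
  choose a x hx hx' using fun γ : U => γ.2
  have k1 : #U ≤ #(Iio κ.ord) := mk_le_of_injective (f := fun γ => (F (a γ)).toFun (x γ))
    fun γ γ' e => Subtype.ext ((hx' γ).symm.trans (((h2 _ _ _ (hx γ) _ (hx γ')).2 e).trans (hx' γ')))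
  have k2 : ∀ γ ∈ U, γ < (Order.succ κ).ord := by
    rintro _ ⟨α, y, -, rfl⟩
    exact y.2.trans (F α).dom_lt
  have k3 : sSup U < (Order.succ κ).ord := Ordinal.sSup_lt_of_lt_cof (by
    rw [← lift_cof, (isRegular_succ hκ).cof_ord]
    rw [Cardinal.mk_Iio_ordinal, card_ord] at k1
    exact k1.trans_lt (Cardinal.lift_lt.2 (Order.lt_succ κ))) k2
  have k4 : ∀ i (hi : i < (Order.succ κ).ord), i ≤ (F ⟨i, hi⟩).dom := fun i => by
    induction i using WellFoundedLT.induction with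
    | ind i ih =>
      exact fun hi => le_of_forall_lt fun j hj =>
        (ih j hj (hj.trans hi)).trans_lt (h1 ⟨j, hj.trans hi⟩ ⟨i, hi⟩ hj)
  have k5 := hlim.add_one_lt k3
  have k6 := hlim.add_one_lt k5
  obtain ⟨y, hy, hy'⟩ := hD (F ⟨_, k6⟩) ⟨sSup U + 1, (lt_add_one _).trans_le (k4 _ k6)⟩
  exact ((lt_add_one _).trans_le hy').not_ge (le_csSup ⟨_, fun γ hγ => (k2 γ hγ).le⟩ ⟨_, y, hy, rfl⟩)

end Pool.Agent.Lib.MP_028983_lc
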