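import Mathlib
import Pool.Agent.Lib.Common.ZfcProv.Defs

/-!
The principle `Δ(κ)` as a formula of set theory.
-/

set_option autoImplicit false

namespace Pool.Agent.Lib.MP_60e7f9_lc.Prov

/-- `l` is the least cardinal above `k`. -/
def scrd (k l : ℕ) : F :=
  and (crd l) (and (mem k l) (allIn l fun a => imp (crd a) (sub a k)))

/-- `f` is a function from `a` to `k`. -/
def fnTo (f a k : ℕ) : F :=
  and (fn f a) (all fun x => all fun y => imp (app f x y) (mem y k))

/-- `f` is a one-to-one function from `a` to `k`. -/
def inj (f a k : ℕ) : F := and (fnTo f a k)
  (all fun x => all fun x' => all fun y => imp (app f x y) (imp (app f x' y) (eq x x')))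

/-- `Δ(k)`, with `l = k⁺` and `I = I(k)`. -/
def delta (k : ℕ) : F := all fun l => imp (scrd k l) (all fun I =>
  imp (all fun f => iff (mem f I) (exIn l fun a => inj f a k)) (all fun D => imp (fn D I)
    (imp (all fun f => all fun a => all fun d => imp (app D f d) (imp (fn f a)
        (and (sub d a) (neg (le k d)))))
      (ex fun S => and (fn S l) (and (all fun i => all fun f => imp (app S i f) (mem f I))
        (and (all fun i => all fun j => all fun f => all fun g => all fun a => all fun b =>
            imp (mem i j) (imp (app S i f) (imp (app S j g) (imp (fn f a) (imp (fn g b)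
              (and (sub a b) (neg (eq a b))))))))
          (all fun i => all fun j => all fun f => all fun g => all fun d => all fun e =>
            imp (app S i f) (imp (app S j g) (imp (app D f d) (imp (app D g e)
              (allIn d fun x => imp (mem x e) (all fun y => all fun z =>
                imp (app f x y) (imp (app g x z) (eq y z))))))))))))))

/-- `Δ(k)` holds for every infinite cardinal `k`. -/
def deltaAll : F := all fun k => imp (icrd k) (delta k)

/-- `k ^ (< k) > k`: for some cardinal `m < k` the set of functions from `m` to `k` does not
inject into `k`. -/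
def bigPow (k : ℕ) : F := exIn k fun m => and (crd m) (ex fun P =>
  and (all fun f => iff (mem f P) (fnTo f m k)) (neg (le P k)))

/-- `Δ(k)` holds for some infinite cardinal `k` with `k ^ (< k) > k`. -/
def notNec : F := ex fun k => and (icrd k) (and (bigPow k) (delta k))

end Pool.Agent.Lib.MP_60e7f9_lc.Prov
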