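import Mathlib
import Pool.Agent.Lib.Common.ZfcProv.Sem
import Pool.Agent.Lib.MP_028983_lc.ProvDefs

/-!
The principle `Δ(κ)` holds in every model of ZFC, hence it is provable from ZFC.
-/

set_option autoImplicit false
set_option linter.unusedSectionVars false
set_option linter.unusedVariables false
set_option linter.unusedSimpArgs false
set_option synthInstance.maxSize 100000

namespace Pool.Agent.Lib.MP_60e7f9_lc.Prov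

open Pool.Agent.Lib.Common.Forcing

variable {M : Type} [Mod M]

/-- Membership in `I(k)`. -/
def InI (k g : M) : Prop := (∀ p ∈ g, ∃ x y, y ∈ k ∧ p = op x y) ∧
  (∀ x y x' y', op x y ∈ g → op x' y' ∈ g → (x = x' ↔ y = y')) ∧ dm g ∈ hs k

theorem InI.fn {k g : M} (h : InI k g) : Fn g (dm g) :=
  ⟨fun p hp => by
    obtain ⟨x, y, -, rfl⟩ := h.1 p hp
    exact ⟨x, m_dm.2 ⟨y, hp⟩, y, rfl⟩, fun x hx => m_dm.1 hx,
    fun x y y' a b => (h.2.1 _ _ _ _ a b).1 rfl⟩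

theorem inI_iff {k g : M} : (∃ a ∈ hs k, (Fn g a ∧ ∀ x y, op x y ∈ g → y ∈ k) ∧
    ∀ x x' y, op x y ∈ g → op x' y ∈ g → x = x') ↔ InI k g := by
  refine ⟨fun ⟨a, h1, ⟨h2, h3⟩, h4⟩ => ⟨fun p hp => ?_, fun x y x' y' a b => ⟨?_, ?_⟩,
    h2.dm.symm ▸ h1⟩, fun h => ⟨_, h.2.2, ⟨h.fn, fun x y hp => ?_⟩,
      fun x x' y a b => (h.2.1 _ _ _ _ a b).2 rfl⟩⟩
  · obtain ⟨x, -, y, rfl⟩ := h2.1 p hp
    exact ⟨x, y, h3 x y hp, rfl⟩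
  · rintro rfl
    exact h2.2.2 _ _ _ a b
  · rintro rfl
    exact h4 _ _ _ a b
  · obtain ⟨x', y', h1, e⟩ := h.1 _ hp
    exact (op_inj e).2 ▸ h1

theorem dm_sU_hs {k A : M} (hk : Od k) (ho : om M ⊆ k) (hA : Le A k)
    (h : ∀ g ∈ A, dm g ∈ hs k) : dm (sU A) ∈ hs k := by
  obtain ⟨S, hS⟩ := repl A fun g => dm g
  have e : dm (sU A) = sU S := ext' fun x => by
    simp only [m_dm, m_sU, hS]
    exact ⟨fun ⟨y, g, h1, h2⟩ => ⟨_, ⟨g, h1, rfl⟩, m_dm.2 ⟨y, h2⟩⟩, by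
      rintro ⟨_, ⟨g, h1, rfl⟩, h2⟩
      obtain ⟨y, hy⟩ := m_dm.1 h2
      exact ⟨y, g, h1, hy⟩⟩
  rw [e]
  refine sU_hs hk ho ((le_surj (fun g => dm g) fun y hy => (hS y).1 hy).trans hA) fun y hy => ?_
  obtain ⟨g, h1, rfl⟩ := (hS y).1 hy
  exact h g h1

theorem inI_sU {k A : M} (hk : Od k) (ho : om M ⊆ k) (hA : Le A k) (h : ∀ g ∈ A, InI k g)
    (hc : ∀ g ∈ A, ∀ g' ∈ A, g ⊆ g' ∨ g' ⊆ g) : InI k (sU A) := by
  refine ⟨fun p hp => ?_, fun x y x' y' a b => ?_, dm_sU_hs hk ho hA fun g hg => (h g hg).2.2⟩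
  · obtain ⟨g, h1, h2⟩ := m_sU.1 hp
    exact (h g h1).1 p h2
  · obtain ⟨g, h1, h2⟩ := m_sU.1 a
    obtain ⟨g', h3, h4⟩ := m_sU.1 b
    rcases hc g h1 g' h3 with e | e
    · exact (h g' h3).2.1 _ _ _ _ (e _ h2) h4
    · exact (h g h1).2.1 _ _ _ _ h2 (e _ h4)

theorem inI_step {k u b p i : M} (hp1 : ∀ x ∈ pr k k, ap p x ∈ k)
    (hp2 : ∀ x ∈ pr k k, ∀ y ∈ pr k k, ap p x = ap p y → x = y) (hi : i ∈ k) (hik : i ⊆ k)
    (hu : InI k u) (hr : ∀ x y, op x y ∈ u → ∃ j ∈ i, ∃ t ∈ k, y = ap p (op j t))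
    (hb : b ∈ hs k) : ∃ g, InI k g ∧ u ⊆ g ∧ b ⊆ dm g ∧
      ∀ x y, op x y ∈ g → ∃ j ∈ sc i, ∃ t ∈ k, y = ap p (op j t) := by
  obtain ⟨e, e1, e2⟩ := (m_hs.1 hb).2
  obtain ⟨w, hw⟩ := repl (b \ dm u) fun x => op x (ap p (op i (ap e x)))
  have hw' : ∀ x y, op x y ∈ w ↔ x ∈ b ∧ x ∉ dm u ∧ y = ap p (op i (ap e x)) := fun x y => by
    simp only [hw, m_diff, op_eq]
    exact ⟨by rintro ⟨_, h, rfl, rfl⟩; exact ⟨h.1, h.2, rfl⟩, fun h => ⟨x, ⟨h.1, h.2.1⟩, rfl, h.2.2⟩⟩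
  have ed : dm (u ∪ w) = dm u ∪ b := ext' fun x => by
    simp only [m_union, m_dm (f := u ∪ w), hw']
    refine ⟨fun ⟨y, h⟩ => h.imp (fun h => m_dm.2 ⟨y, h⟩) (·.1), fun h => ?_⟩
    by_cases hx : x ∈ dm u
    · exact (m_dm.1 hx).imp fun _ => .inl
    · exact ⟨_, .inr ⟨h.resolve_left hx, hx, rfl⟩⟩
  have cross : ∀ x y x' y', op x y ∈ u → op x' y' ∈ w → (x = x' ↔ y = y') := fun x y x' y' a c => by
    obtain ⟨c1, c2, rfl⟩ := (hw' _ _).1 c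
    obtain ⟨j, a1, t, a2, rfl⟩ := hr x y a
    refine iff_of_false (fun h => c2 (h ▸ m_dm.2 ⟨_, a⟩)) fun h => not_mem_self i ?_
    exact (op_inj (hp2 _ (op_pr.2 ⟨hik j a1, a2⟩) _ (op_pr.2 ⟨hi, e1 _ c1⟩) h)).1 ▸ a1
  refine ⟨u ∪ w, ⟨fun q hq => ?_, fun x y x' y' a c => ?_, ed ▸ (od_hs k).union_mem hu.2.2 hb⟩,
    fun z hz => m_union.2 (.inl hz), ed ▸ fun z hz => m_union.2 (.inr hz), fun x y a => ?_⟩
  · rcases m_union.1 hq with h | h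
    · exact hu.1 q h
    · obtain ⟨x, hx, rfl⟩ := (hw q).1 h
      exact ⟨_, _, hp1 _ (op_pr.2 ⟨hi, e1 x (m_diff.1 hx).1⟩), rfl⟩
  · rcases m_union.1 a with a | a <;> rcases m_union.1 c with c | c
    · exact hu.2.1 _ _ _ _ a c
    · exact cross _ _ _ _ a c
    · rw [eq_comm, eq_comm (a := y)]
      exact cross _ _ _ _ c a
    · obtain ⟨a1, -, rfl⟩ := (hw' _ _).1 a
      obtain ⟨c1, -, rfl⟩ := (hw' _ _).1 c
      exact ⟨fun h => by rw [h], fun h => e2 x a1 x' c1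
        (op_inj (hp2 _ (op_pr.2 ⟨hi, e1 _ a1⟩) _ (op_pr.2 ⟨hi, e1 _ c1⟩) h)).2⟩
  · rcases m_union.1 a with a | a
    · obtain ⟨j, a1, h⟩ := hr x y a
      exact ⟨j, sub_sc i j a1, h⟩
    · obtain ⟨a1, -, rfl⟩ := (hw' _ _).1 a
      exact ⟨i, mem_sc i, _, e1 x a1, rfl⟩

theorem exists_good {k I D : M} (hk : Od k) (ho : om M ⊆ k) (hI : ∀ f, f ∈ I ↔ InI k f)
    (hD : ∀ f ∈ I, ¬ Le k (ap D f)) : ∃ g ∈ I, ∀ b ∈ hs k, ∃ f ∈ I, g ⊆ f ∧ b ⊆ dm f ∧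
      ∀ x ∈ ap D f, x ∈ b → x ∈ dm g := by
  by_contra hc
  obtain ⟨B, -, hB⟩ := ch I (fun g b => b ∈ hs k ∧ ∀ f ∈ I, g ⊆ f → b ⊆ dm f →
      ∃ x ∈ ap D f, x ∈ b ∧ x ∉ dm g) fun g hg => by
    by_contra h
    refine hc ⟨g, hg, fun b hb => by_contra fun h' => h ⟨b, hb, fun f hf a c => ?_⟩⟩
    by_contra h''
    exact h' ⟨f, hf, a, c, fun x hx hxb => by_contra fun e => h'' ⟨x, hx, hxb, e⟩⟩
  obtain ⟨p, p1', p2'⟩ := sq_le k hk ho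
  have h0 : InI k (∅ : M) := ⟨by simp, by simp, by
    rw [s_emp.1 fun x hx => (m_dm.1 hx).elim fun y => m_emp _]
    exact om_hs hk ho _ emp_om⟩
  obtain ⟨G, g1, g2⟩ := rec_ch hk I (fun i F g => sU (im F i) ∈ I →
      (∀ x y, op x y ∈ sU (im F i) → ∃ j ∈ i, ∃ t ∈ k, y = ap p (op j t)) →
      sU (im F i) ⊆ g ∧ ap B (sU (im F i)) ⊆ dm g ∧
        ∀ x y, op x y ∈ g → ∃ j ∈ sc i, ∃ t ∈ k, y = ap p (op j t)) fun i hi F _ => by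
    by_cases h : sU (im F i) ∈ I ∧
        ∀ x y, op x y ∈ sU (im F i) → ∃ j ∈ i, ∃ t ∈ k, y = ap p (op j t)
    · obtain ⟨g, a1, a2⟩ := inI_step p1' p2' hi (hk.sub hi) ((hI _).1 h.1) h.2 (hB _ h.1).1
      exact ⟨g, (hI g).2 a1, fun _ _ => a2⟩
    · exact ⟨∅, (hI _).2 h0, fun a b => absurd ⟨a, b⟩ h⟩
  simp only [im_rs] at g2
  have inv : ∀ i, Od i → i ⊆ k → sU (im G i) ∈ I ∧
      ∀ x y, op x y ∈ sU (im G i) → ∃ j ∈ i, ∃ t ∈ k, y = ap p (op j t) := by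
    refine od_ind _ fun i hi ih hik => ?_
    have h1 := fun j (hj : j ∈ i) => ih j hj (sub_trans (hi.sub hj) hik)
    have h2 := fun j (hj : j ∈ i) => g2 j (hik j hj) (h1 j hj).1 (h1 j hj).2
    have h3 : ∀ j ∈ i, ∀ j' ∈ j, ap G j' ⊆ ap G j := fun j hj j' hj' z hz =>
      (h2 j hj).1 z (m_sU.2 ⟨_, m_im.2 ⟨j', hj', rfl⟩, hz⟩)
    refine ⟨(hI _).2 (inI_sU hk ho ((le_im G i).trans (le_of_sub hik)) (fun g hg => ?_)
      fun g hg g' hg' => ?_), fun x y h => ?_⟩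
    · obtain ⟨j, hj, rfl⟩ := m_im.1 hg
      exact (hI _).1 ((m_fs.1 g1).2 j (hik j hj))
    · obtain ⟨j, hj, rfl⟩ := m_im.1 hg
      obtain ⟨j', hj', rfl⟩ := m_im.1 hg'
      rcases od_tri j (hi.mem hj) j' (hi.mem hj') with e | rfl | e
      exacts [.inl (h3 j' hj' j e), .inl sub_rfl, .inr (h3 j hj j' e)]
    · obtain ⟨g, hg, h'⟩ := m_sU.1 h
      obtain ⟨j, hj, rfl⟩ := m_im.1 hg
      obtain ⟨j', a1, a2⟩ := (h2 j hj).2.2 x y h'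
      exact ⟨j', hi.sc_sub hj j' a1, a2⟩
  have mono : ∀ i j, i ∈ j → ap G i ⊆ sU (im G j) := fun i j h z hz =>
    m_sU.2 ⟨_, m_im.2 ⟨i, h, rfl⟩, hz⟩
  have hf := (inv k hk sub_rfl).1
  refine hD _ hf (le_rel (fun i x => x ∈ dm (ap G i) ∧ x ∉ dm (sU (im G i))) (fun i hi => ?_)
    fun i hi j hj x a b => ?_)
  · have h1 := inv i (hk.mem hi) (hk.sub hi)
    have h2 := g2 i hi h1.1 h1.2
    obtain ⟨x, a1, a2, a3⟩ := (hB _ h1.1).2 _ hf (sub_trans h2.1 (mono i k hi))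
      (sub_trans h2.2.1 (dm_mono (mono i k hi)))
    exact ⟨x, a1, h2.2.1 x a2, a3⟩
  · rcases od_tri i (hk.mem hi) j (hk.mem hj) with e | e | e
    · exact absurd (dm_mono (mono i j e) x a.1) b.2
    · exact e
    · exact absurd (dm_mono (mono j i e) x b.1) a.2

/-- Meaning of `delta`. -/
def Delta (k : M) : Prop := ∀ l : M, (Crd l ∧ k ∈ l ∧ ∀ a ∈ l, Crd a → a ⊆ k) → ∀ I : M,
  (∀ f, f ∈ I ↔ ∃ a ∈ l, (Fn f a ∧ ∀ x y, op x y ∈ f → y ∈ k) ∧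
    ∀ x x' y, op x y ∈ f → op x' y ∈ f → x = x') → ∀ D, Fn D I →
  (∀ f a d, op f d ∈ D → Fn f a → d ⊆ a ∧ ¬ Le k d) →
  ∃ S, Fn S l ∧ (∀ i f, op i f ∈ S → f ∈ I) ∧
    (∀ i j f g a b, i ∈ j → op i f ∈ S → op j g ∈ S → Fn f a → Fn g b → a ⊆ b ∧ ¬ a = b) ∧
    ∀ i j f g d e, op i f ∈ S → op j g ∈ S → op f d ∈ D → op g e ∈ D →
      ∀ x ∈ d, x ∈ e → ∀ y z, op x y ∈ f → op x z ∈ g → y = z

theorem delta_mod {k : M} (hk : Od k) (ho : om M ⊆ k) : Delta k := by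
  rintro l ⟨l1, l2, l3⟩ I hI D hD hD'
  obtain rfl := succ_eq l1 l2 l3
  simp only [inI_iff] at hI
  have hd : ∀ f ∈ I, ap D f ⊆ dm f ∧ ¬ Le k (ap D f) := fun f hf =>
    hD' f _ _ (hD.op_iff.2 ⟨hf, rfl⟩) ((hI f).1 hf).fn
  obtain ⟨g, hg, H⟩ := exists_good hk ho hI fun f hf => (hd f hf).2
  obtain ⟨S, s1, s2⟩ := rec_ch (od_hs k) I (fun j F f => g ⊆ f ∧ ∀ i ∈ j, dm (ap F i) ∈ dm f ∧
      ∀ x ∈ ap D f, x ∈ dm (ap F i) → x ∈ dm g) fun j hj F hF => by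
    have h1 : dm (sU (im F j)) ∈ hs k := dm_sU_hs hk ho ((le_im F j).trans (m_hs.1 hj).2)
      fun u hu => by
        obtain ⟨i, hi, rfl⟩ := m_im.1 hu
        exact ((hI _).1 ((m_fs.1 hF).2 i hi)).2.2
    obtain ⟨f, a1, a2, a3, a4⟩ := H _ (sc_hs hk ho h1)
    refine ⟨f, a1, a2, fun i hi => ?_⟩
    have h2 : dm (ap F i) ⊆ dm (sU (im F j)) :=
      dm_mono fun z hz => m_sU.2 ⟨_, m_im.2 ⟨i, hi, rfl⟩, hz⟩
    exact ⟨a3 _ (((od_hs k).mem ((hI _).1 ((m_fs.1 hF).2 i hi)).2.2).sub_mem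
      ((od_hs k).mem h1).sc h2 (mem_sc _)), fun x hx h => a4 x hx (sub_sc _ x (h2 x h))⟩
  obtain ⟨s0, s1⟩ := m_fs.1 s1
  have s3 : ∀ j ∈ hs k, ∀ i ∈ j, dm (ap S i) ∈ dm (ap S j) ∧
      ∀ x ∈ ap D (ap S j), x ∈ dm (ap S i) → x ∈ dm g := fun j hj i hi => by
    have := (s2 j hj).2 i hi
    rwa [ap_rs hi] at this
  have key : ∀ i ∈ hs k, ∀ j ∈ hs k, ∀ x ∈ dm g, ∀ y z, op x y ∈ ap S i → op x z ∈ ap S j →
      y = z := fun i hi j hj x hx y z a b => by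
    obtain ⟨w, hw⟩ := m_dm.1 hx
    exact (((hI _).1 (s1 i hi)).fn.2.2 _ _ _ a ((s2 i hi).1 _ hw)).trans
      (((hI _).1 (s1 j hj)).fn.2.2 _ _ _ ((s2 j hj).1 _ hw) b)
  refine ⟨S, s0, fun i f h => ?_, fun i j f f' a b hij h h' ha hb => ?_,
    fun i j f f' d e h h' c c' x hx hx' y z a b => ?_⟩
  · obtain ⟨hi, rfl⟩ := s0.op_iff.1 h
    exact s1 i hi
  · obtain ⟨hi, rfl⟩ := s0.op_iff.1 h
    obtain ⟨hj, rfl⟩ := s0.op_iff.1 h'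
    have h1 := (s3 j hj i hij).1
    have h2 := (od_hs k).mem ((hI _).1 (s1 j hj)).2.2
    rw [ha.dm, hb.dm] at *
    exact ⟨h2.sub h1, fun e => not_mem_self b (e ▸ h1)⟩
  · obtain ⟨hi, rfl⟩ := s0.op_iff.1 h
    obtain ⟨hj, rfl⟩ := s0.op_iff.1 h'
    obtain ⟨-, rfl⟩ := hD.op_iff.1 c
    obtain ⟨-, rfl⟩ := hD.op_iff.1 c'
    rcases od_tri i ((od_hs k).mem hi) j ((od_hs k).mem hj) with e | rfl | e
    · exact key i hi j hj x ((s3 j hj i e).2 x hx' (m_dm.2 ⟨y, a⟩)) y z a b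
    · exact ((hI _).1 (s1 i hi)).fn.2.2 _ _ _ a b
    · exact key i hi j hj x ((s3 i hi j e).2 x hx (m_dm.2 ⟨z, b⟩)) y z a b

theorem exists_bigPow : ∃ k : M, Crd k ∧ om M ∈ k ∧ ¬ Le (fs (om M) k) k := by
  obtain ⟨c, -, c2, c3, c4, c5⟩ := exists_seq (od_om (M := M)) sub_rfl
  have hk : Od (sU (im c (om M))) := od_sU fun x hx => by
    obtain ⟨n, hn, rfl⟩ := m_im.1 hx
    exact (c4 n hn).1
  have h1 : ∀ n ∈ om M, hs (ap c n) ⊆ sU (im c (om M)) := fun n hn z hz =>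
    m_sU.2 ⟨_, m_im.2 ⟨_, sc_om hn, rfl⟩, c3 n hn ▸ hz⟩
  have h2 : ∀ a ∈ sU (im c (om M)), ∃ n ∈ om M, a ∈ ap c n := fun a ha => by
    obtain ⟨y, hy, h⟩ := m_sU.1 ha
    obtain ⟨n, hn, rfl⟩ := m_im.1 hy
    exact ⟨n, hn, h⟩
  refine ⟨_, ⟨hk, fun a ha h => ?_⟩, h1 _ emp_om _ (c2.symm ▸ mem_hs od_om), ?_⟩
  · obtain ⟨n, hn, h'⟩ := h2 a ha
    exact not_le_hs _ ((le_of_sub (h1 n hn)).trans (h.trans (le_of_sub ((c4 n hn).1.sub h'))))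
  · rintro ⟨g, g1, g2⟩
    obtain ⟨y, y1, y2⟩ := ch (om M) (fun n y => y ∈ hs (ap c n) ∧
        ∀ h ∈ fs (om M) (sU (im c (om M))), ap g h ∈ ap c n → ap h n ≠ y) fun n hn => by
      by_contra hc
      refine not_le_hs (ap c n) (le_rel (fun y z => ∃ h ∈ fs (om M) (sU (im c (om M))),
        ap h n = y ∧ z = ap g h) (fun y hy => ?_) ?_)
      · by_contra h'
        exact hc ⟨y, hy, fun h a b e => h' ⟨_, b, h, a, e, rfl⟩⟩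
      · rintro _ - _ - _ ⟨h, a, rfl, rfl⟩ ⟨h', a', rfl, e⟩
        rw [g2 h a h' a' e]
    have hy : y ∈ fs (om M) (sU (im c (om M))) :=
      m_fs.2 ⟨y1, fun n hn => h1 n hn _ (y2 n hn).1⟩
    obtain ⟨n, hn, h⟩ := h2 _ (g1 y hy)
    exact (y2 n hn).2 y hy h rfl

theorem ev_deltaAll (v : ℕ → M) : Ev Mod.E (deltaAll 0) v := by
  simp only [deltaAll, delta, scrd, inj, fnTo, icrd, crd, ord, le, fn, nat, ind, emp, suc, leq, app,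
    opr, upr, sub, allIn, exIn, ev_all, ev_ex, ev_imp, ev_neg, ev_and, ev_mem, ev_iff, ev_or,
    ev_eq, Nat.reduceAdd, Nat.reduceSub, cons_zero, cons_succ, E_def, s_emp, s_suc, s_op, s_up,
    exists_eq_right, s_om, s_sub, s_le, s_od, s_crd, s_fn]
  exact fun k h => delta_mod h.1.1 h.2

theorem ev_notNec (v : ℕ → M) : Ev Mod.E (notNec 0) v := by
  simp only [notNec, bigPow, delta, scrd, inj, fnTo, icrd, crd, ord, le, fn, nat, ind, emp, suc,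
    leq, app, opr, upr, sub, allIn, exIn, ev_all, ev_ex, ev_imp, ev_neg, ev_and, ev_mem, ev_iff,
    ev_or, ev_eq, Nat.reduceAdd, Nat.reduceSub, cons_zero, cons_succ, E_def, s_emp, s_suc, s_op,
    s_up, exists_eq_right, s_om, s_sub, s_le, s_od, s_crd, s_fn]
  obtain ⟨k, h1, h2, h3⟩ := exists_bigPow (M := M)
  refine ⟨k, ⟨h1, h1.1.sub h2⟩, ⟨_, h2, crd_om, _, fun f => m_fs.trans
    (and_congr_right fun hf => ⟨fun h x y a => ?_, fun h x hx => h x _ (hf.op_iff.2 ⟨hx, rfl⟩)⟩),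
      h3⟩, delta_mod h1.1 (h1.1.sub h2)⟩
  obtain ⟨hx, rfl⟩ := hf.op_iff.1 a
  exact h x hx

theorem prf_deltaAll : Prf [] (deltaAll 0) :=
  complete fun M E h v => @ev_deltaAll M ⟨E, v, h⟩ v

theorem prf_notNec : Prf [] (notNec 0) :=
  complete fun M E h v => @ev_notNec M ⟨E, v, h⟩ v

end Pool.Agent.Lib.MP_60e7f9_lc.Prov
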