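import Mathlib
import Pool.Agent.Lib.MP_028983_lc.Prov

set_option autoImplicit false

namespace Pool.Agent.Lib.MP_028983_lc.NotNecessaryProv

open Pool.Agent.Lib.MP_60e7f9_lc

/-- ZFC proves, and does not refute, that `Δ(κ)` holds for some infinite cardinal `κ` with
`κ ^ (< κ) > κ`. -/
theorem singular_witness : Prov.Prf [] (Prov.notNec 0) ∧ ¬ Prov.Prf [] (Prov.neg Prov.notNec 0) :=
  ⟨Prov.prf_notNec, Prov.not_prf_neg Prov.prf_notNec⟩

end Pool.Agent.Lib.MP_028983_lc.NotNecessaryProv
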