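import Mathlib
import Pool.Agent.Lib.Common.Forcing.Model
import Pool.Agent.Lib.Common.Forcing.Cohen

/-!
A countable transitive model with three infinite sizes of sets of reals.
-/

set_option autoImplicit false

namespace Pool.Agent.Lib.MP_028983_lc.Reg

open Set Filter Cardinal Pool.Agent.Lib.Common.Forcing

section
variable {P : Type} [Preorder P]

/-- A member of the first name that is forced to have no image. -/
def jA : Job P := fun l S q => ∃ ρ ∈ S, Fmem ρ (l.getD 0 emp) q ∧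
  Neg (fun r => ∃ i, Fmem (op ρ ((l.getD 1 emp).A i)) (l.getD 2 emp) r) q

/-- Two names forced to be different with the same image. -/
def jB : Job P := fun l S q => ∃ ρ ∈ S, ∃ ρ' ∈ S, ∃ σ ∈ S,
  Fmem (op ρ σ) (l.getD 0 emp) q ∧ Fmem (op ρ' σ) (l.getD 0 emp) q ∧ Neg (Feq ρ ρ') q

/-- `γ` relates every member of `X` to a member of `Y`, in a one-to-one way. -/
def Inj (γ X Y : ZFSet.{0}) : Prop :=
  (∀ a ∈ X, ∃ b ∈ Y, ZFSet.pair a b ∈ γ) ∧
    ∀ a a' b, ZFSet.pair a b ∈ γ → ZFSet.pair a' b ∈ γ → a = a'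

theorem ev_le (g : Gen P) (n : ℕ) : ∀ᶠ q in g.fil, q ≤ g.h n := ⟨n, fun _ h => h⟩

/-- The countable chain condition bounds the size of a family that injects into a set. -/
theorem card_le (hP : CCC P) {g : Gen P} (hA : g.Meets jA) (hB : g.Meets jB) {ι : Type}
    {A : ι → Name P} (hτ : fam A ∈ g.N) {σ : Name P} (hσ : σ ∈ g.N)
    (hd : ∀ i j p, Feq (A i) (A j) p → i = j) {z : ZFSet.{0}} (hz : z ∈ g.M)
    (h : Inj z (g.π (fam A)) (g.π σ)) : #ι ≤ #σ.ι * ℵ₀ := by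
  obtain ⟨γ, hγ, rfl⟩ := Gen.mem_M.1 hz
  obtain ⟨n₁, ⟨S, hS, ρ, a, c, d⟩ | h1⟩ := hA [fam A, σ, γ] (Gen.l3 hτ hσ hγ)
  · obtain ⟨b, b1, b2⟩ := h.1 _ ((Gen.π_mem_iff (hS a) hτ).2 ⟨n₁, fun q hq => Fmem.mono c hq⟩)
    obtain ⟨i, i1, rfl, -⟩ := Gen.exists_child hσ b1
    obtain ⟨q, c1, c2⟩ := ((ev_le g n₁).and ((Gen.pair_mem_iff (hS a) i1 hγ).1 b2)).exists
    exact (d q c1 ⟨i, c2⟩).elim
  obtain ⟨n₂, ⟨S, hS, ρ, a, ρ', a', η, b, c, c', d⟩ | h2⟩ := hB [γ] (Gen.l1 hγ)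
  · have e := h.2 _ _ _ ((Gen.pair_mem_iff (hS a) (hS b) hγ).2 ⟨n₂, fun q hq => Fmem.mono c hq⟩)
      ((Gen.pair_mem_iff (hS a') (hS b) hγ).2 ⟨n₂, fun q hq => Fmem.mono c' hq⟩)
    obtain ⟨q, c1, c2⟩ := ((ev_le g n₂).and (Gen.ev_eq_of_π_eq (hS a) (hS a') e)).exists
    exact (d q c1 c2).elim
  obtain ⟨q, a1, a2⟩ := ((ev_le g n₁).and (ev_le g n₂)).exists
  have t : ∀ i, ∃ k, ∃ r, r ≤ q ∧ Fmem (op (A i) (σ.A k)) γ r := fun i => by
    by_contra hc
    exact h1 q a1 {A i} (countable_singleton _) ⟨A i, rfl, fmem_fam_self A i q,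
      fun r hr ⟨k, hk⟩ => hc ⟨k, r, hr, hk⟩⟩
  choose k hk using t
  refine mk_le_mk_mul_of_mk_preimage_le k fun b => le_aleph0_iff_set_countable.2 ?_
  refine (hP.countable_values (fun r i => r ≤ q ∧ Fmem (op (A i) (σ.A b)) γ r)
    (fun p r i h hr => ⟨hr.trans h.1, h.2.mono hr⟩) fun p i j hi hj => ?_).mono fun i hi => ?_
  · by_contra hc
    exact h2 p (hi.1.trans a2) {A i, A j, σ.A b} (toFinite _).countable
      ⟨A i, by simp, A j, by simp, σ.A b, by simp, hi.2, hj.2, fun r _ e => hc (hd i j r e)⟩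
  · obtain rfl : k i = b := hi
    exact hk i

end

/-- The Cohen real with index `a`. -/
noncomputable def real {I : Type} (a : I) : Name (Cond (I × ℕ)) :=
  ⟨ℕ, fun n => oc n, fun n p => p.f (a, n) = some true⟩

theorem real_inj {I : Type} (a b : I) (p : Cond (I × ℕ)) (h : Feq (real a) (real b) p) : a = b := by
  by_contra hab
  obtain ⟨n, hn⟩ := (p.fin.image Prod.snd).exists_notMem
  have h0 : ∀ c, p.f (c, n) = none := fun c => by
    by_contra hc
    exact hn ⟨(c, n), hc, rfl⟩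
  have hne : (b, n) ≠ (a, n) := fun e => hab (Prod.ext_iff.1 e).1.symm
  have l1 : p.set (a, n) true ≤ p := Cond.set_le (by simp [h0])
  have l2 : (p.set (a, n) true).set (b, n) false ≤ p.set (a, n) true :=
    Cond.set_le (by simp [Cond.set_of_ne p hne, h0])
  have m1 : Fmem (oc n) (real a) ((p.set (a, n) true).set (b, n) false) :=
    Fmem.intro n (l2 _ _ (Cond.set_self _ _ _)) (Feq.refl _ _)
  obtain ⟨r, hr, m, e1, e2⟩ := Fmem.elim (A := fun n : ℕ => oc n)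
    (c := fun n (p : Cond (I × ℕ)) => p.f (b, n) = some true) (fun i s r hs hr => Cond.le_def.1 hr _ _ hs)
    (m1.congr_right (h.mono (l2.trans l1))) le_rfl
  obtain rfl : n = m := by exact_mod_cast feq_oc_iff.1 e2
  have := (hr _ _ (Cond.set_self _ _ _)).symm.trans e1
  simp at this

theorem exists_model : ∃ M X W : ZFSet.{0}, IsCTM M ∧ X ∈ M ∧ W ∈ M ∧
    (∀ x ∈ X, ∀ y ∈ x, ∃ n : ℕ, (n : Ordinal.{0}).toZFSet = y) ∧
    (∀ γ ∈ M, ¬ Inj γ W ZFSet.omega) ∧ ∀ γ ∈ M, ¬ Inj γ X W := by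
  let X : Name (Cond (Set (Set ℕ) × ℕ)) := fam real
  let W : Name (Cond (Set (Set ℕ) × ℕ)) := fam fun a : Set ℕ => real {a}
  obtain ⟨g, -, h⟩ := exists_gen (P := Cond (Set (Set ℕ) × ℕ))
    {jA, jB, fun _ S _ => {X, W} ⊆ S} (toFinite _).countable default
  have hA := h jA (by simp)
  have hB := h jB (by simp)
  have hN : {X, W} ⊆ g.N := PreGen.Meets.closed (F := fun _ => {X, W})
    (fun _ => (toFinite _).countable) (h _ (by simp)) [] (by simp)
  have hX : X ∈ g.N := hN (by simp)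
  have hW : W ∈ g.N := hN (by simp)
  refine ⟨g.M, g.π X, g.π W, Gen.isCTM, Gen.π_mem_M hX, Gen.π_mem_M hW, fun x hx y hy => ?_,
    fun γ hγ hi => ?_, fun γ hγ hi => ?_⟩
  · obtain ⟨a, a1, rfl, -⟩ := Gen.exists_child hX hx
    obtain ⟨n, -, rfl, -⟩ := Gen.exists_child a1 hy
    exact ⟨n, (Gen.π_nat n).symm⟩
  · rw [← Gen.π_omega (g := g)] at hi
    have h1 := card_le (Cond.ccc _) hA hB hW g.omega_mem
      (fun i j p e => singleton_injective (real_inj _ _ p e)) hγ hi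
    have h2 : #(oc Ordinal.omega0 : Name (Cond (Set (Set ℕ) × ℕ))).ι = ℵ₀ := by
      rw [oc_eq]
      exact (mk_toType _).trans Ordinal.card_omega0
    rw [h2, aleph0_mul_aleph0, mk_set, mk_nat] at h1
    exact (cantor _).not_ge h1
  · have h1 : #(Set (Set ℕ)) ≤ #(Set ℕ) * ℵ₀ :=
      card_le (Cond.ccc _) hA hB hX hW real_inj hγ hi
    rw [mul_aleph0_eq (aleph0_le_mk _), mk_set] at h1
    exact (cantor _).not_ge h1

end Pool.Agent.Lib.MP_028983_lc.Reg
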