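import Mathlib
import Pool.Agent.Lib.MP_028983_lc.ProvDefs

/-!
Regular cardinals, and the negated form of the first question with a regular witness.
-/

set_option autoImplicit false

namespace Pool.Agent.Lib.MP_60e7f9_lc.Prov

/-- The cardinal `k` is regular: every subset of `k` of size below `k` is bounded in `k`. -/
def reg (k : ℕ) : F :=
  all fun A => imp (sub A k) (imp (neg (le k A)) (exIn k fun b => sub A b))

/-- `Δ(k)` holds for some infinite regular cardinal `k` with `k ^ (< k) > k`. -/
def notNecReg : F := ex fun k => and (icrd k) (and (reg k) (and (bigPow k) (delta k)))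

end Pool.Agent.Lib.MP_60e7f9_lc.Prov
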