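import Mathlib
import Pool.Agent.Lib.MP_028983_lc.Prov
import Pool.Agent.Lib.MP_028983_lc.RegDefs
import Pool.Agent.Lib.MP_028983_lc.RegCohen

/-!
In a model where the continuum hypothesis fails, the first uncountable cardinal is a regular
witness.
-/

set_option autoImplicit false
set_option linter.unusedSectionVars false
set_option linter.unusedVariables false
set_option linter.unusedSimpArgs false
set_option synthInstance.maxSize 100000

namespace Pool.Agent.Lib.MP_60e7f9_lc.Prov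

open Pool.Agent.Lib.Common.Forcing

section
variable {M : Type} [Mod M]

theorem reg_hs {k : M} (hk : Od k) (ho : om M ⊆ k) (A : M) (h1 : A ⊆ hs k) (h2 : ¬ Le (hs k) A) :
    ∃ b, b ∈ hs k ∧ A ⊆ b := by
  have h3 := sU_hs hk ho (le_of_not_hs h2) h1
  exact ⟨_, sc_hs hk ho h3, fun x hx => ((od_hs k).mem (h1 x hx)).sub_mem ((od_hs k).mem h3).sc
    (fun z hz => m_sU.2 ⟨x, hx, hz⟩) (mem_sc _)⟩

open Classical in
theorem pw_le_fs {a k : M} (h0 : (∅ : M) ∈ k) (h1 : sc ∅ ∈ k) : Le (pw a) (fs a k) := by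
  refine le_rel (fun x f => ∀ n ∈ a, (n ∈ x ↔ ap f n = ∅)) (fun x hx => ?_)
    fun x hx x' hx' f h h' => ext' fun n => ⟨fun hn => ?_, fun hn => ?_⟩
  · obtain ⟨f, f1, f2⟩ := lam a fun n => if n ∈ x then (∅ : M) else sc ∅
    refine ⟨f, m_fs.2 ⟨f1, fun n hn => ?_⟩, fun n hn => ?_⟩
    · rw [f2 n hn]
      split_ifs <;> assumption
    · rw [f2 n hn]
      by_cases h : n ∈ x
      · simp [h]
      · simp [h, sc_ne]
  · exact (h' n (m_pw.1 hx n hn)).2 ((h n (m_pw.1 hx n hn)).1 hn)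
  · exact (h n (m_pw.1 hx' n hn)).2 ((h' n (m_pw.1 hx' n hn)).1 hn)

theorem ev_notNecReg {X W : M} (hX : X ⊆ pw (om M)) (h1 : ¬ Le W (om M)) (h2 : ¬ Le X W)
    (v : ℕ → M) : Ev Mod.E (notNecReg 0) v := by
  simp only [notNecReg, reg, bigPow, delta, scrd, inj, fnTo, icrd, crd, ord, le, fn, nat, ind, emp,
    suc, leq, app, opr, upr, sub, allIn, exIn, ev_all, ev_ex, ev_imp, ev_neg, ev_and, ev_mem, ev_iff,
    ev_or, ev_eq, Nat.reduceAdd, Nat.reduceSub, cons_zero, cons_succ, E_def, s_emp, s_suc, s_op,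
    s_up, exists_eq_right, s_om, s_sub, s_le, s_od, s_crd, s_fn]
  have ho : om M ⊆ hs (om M) := om_hs od_om sub_rfl
  have h3 : ¬ Le (fs (om M) (hs (om M))) (hs (om M)) := fun h => h2 ((le_of_sub hX).trans
    ((pw_le_fs (ho _ emp_om) (ho _ (sc_om emp_om))).trans
      (h.trans (by_contra fun h' => h1 (le_of_not_hs h')))))
  refine ⟨hs (om M), ⟨crd_hs _, ho⟩, reg_hs od_om sub_rfl, ⟨_, mem_hs od_om, crd_om, _,
    fun f => m_fs.trans (and_congr_right fun hf =>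
      ⟨fun h x y a => ?_, fun h x hx => h x _ (hf.op_iff.2 ⟨hx, rfl⟩)⟩), h3⟩,
    delta_mod (od_hs _) ho⟩
  obtain ⟨hx, rfl⟩ := hf.op_iff.1 a
  exact h x hx

end

section
variable {M : ZFSet.{0}} {T : Type} {f : T → ZFSet.{0}}

theorem ev_sat (hf : Function.Injective f) (hr : ∀ x, x ∈ M ↔ ∃ t, f t = x) (φ : Fm) :
    ∃ n, ∀ (v : ℕ → T) (e : List ZFSet.{0}), (∀ i < n, e.getD i ∅ = f (v i)) →
      (Ev (fun a b => f a ∈ f b) φ v ↔ Sat M φ e) := by
  induction φ with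
  | mem i j =>
    refine ⟨max i j + 1, fun v e h => ?_⟩
    simp only [Ev, Sat]
    rw [h i (by omega), h j (by omega)]
  | eq i j =>
    refine ⟨max i j + 1, fun v e h => ?_⟩
    simp only [Ev, Sat]
    rw [h i (by omega), h j (by omega), hf.eq_iff]
  | bot => exact ⟨0, fun _ _ _ => Iff.rfl⟩
  | imp φ ψ ih1 ih2 =>
    obtain ⟨n, h1⟩ := ih1
    obtain ⟨m, h2⟩ := ih2
    refine ⟨max n m, fun v e h => ?_⟩
    simp only [Ev, Sat]
    rw [h1 v e fun i hi => h i (by omega), h2 v e fun i hi => h i (by omega)]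
  | all φ ih =>
    obtain ⟨n, h1⟩ := ih
    refine ⟨n, fun v e h => ?_⟩
    have h2 : ∀ t, Ev (fun a b => f a ∈ f b) φ (cons t v) ↔ Sat M φ (f t :: e) := fun t =>
      h1 _ _ fun i hi => by
        cases i with
        | zero => rfl
        | succ i => exact h i (by omega)
    simp only [Ev, Sat, h2]
    refine ⟨fun a x hx => ?_, fun a t => a _ ((hr _).2 ⟨t, rfl⟩)⟩
    obtain ⟨t, rfl⟩ := (hr x).1 hx
    exact a t

theorem ev_list (hf : Function.Injective f) (hr : ∀ x, x ∈ M ↔ ∃ t, f t = x) (φ : Fm)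
    (v : ℕ → T) : ∃ e : List ZFSet.{0}, (∀ z ∈ e, z ∈ M) ∧
      (∀ x, Ev (fun a b => f a ∈ f b) φ (cons x v) ↔ Sat M φ (f x :: e)) ∧
      ∀ x y, Ev (fun a b => f a ∈ f b) φ (cons y (cons x v)) ↔ Sat M φ (f y :: f x :: e) := by
  obtain ⟨n, h⟩ := ev_sat hf hr φ
  have h0 : ∀ i < n, ((List.range n).map fun i => f (v i)).getD i ∅ = f (v i) := fun i hi => by
    simp [hi]
  refine ⟨(List.range n).map fun i => f (v i), fun z hz => ?_, fun x => h _ _ fun i hi => ?_,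
    fun x y => h _ _ fun i hi => ?_⟩
  · obtain ⟨i, -, rfl⟩ := List.mem_map.1 hz
    exact (hr _).2 ⟨_, rfl⟩
  · cases i with
    | zero => rfl
    | succ i => exact h0 i (by omega)
  · rcases i with _ | _ | i
    · rfl
    · rfl
    · exact h0 i (by omega)

theorem ctm_model (hM : IsCTM M) (hf : Function.Injective f) (hr : ∀ x, x ∈ M ↔ ∃ t, f t = x)
    (φ : Fm) (h : ZFC φ) (v : ℕ → T) : Ev (fun a b => f a ∈ f b) φ v := by
  have e1 : ∀ (a b x : T), (fun i => cons x (cons b (cons a v)) (cons 0 (· + 3) i)) =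
      cons x v := fun a b x => funext fun i => by cases i <;> rfl
  have e2 : ∀ (a x y : T),
      (fun i => cons y (cons x (cons a v)) (cons 0 (cons 1 (· + 3)) i)) = cons y (cons x v) :=
    fun a x y => funext fun i => by rcases i with _ | _ | i <;> rfl
  have e3 : ∀ (a b x y : T),
      (fun i => cons y (cons x (cons b (cons a v))) (cons 0 (cons 1 (· + 4)) i)) =
        cons y (cons x v) :=
    fun a b x y => funext fun i => by rcases i with _ | _ | i <;> rfl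
  have hm : ∀ t, f t ∈ M := fun t => (hr _).2 ⟨t, rfl⟩
  have el : ∀ {a : T} {x : ZFSet.{0}}, x ∈ f a → ∃ t, f t = x := fun {a x} hx =>
    (hr x).1 (hM.trans _ (hm a) hx)
  cases h <;> simp only [ind, emp, suc, sub, allIn, exIn, at1, at2, ev_all, ev_ex, ev_imp, ev_neg,
    ev_and, ev_mem, ev_iff, ev_or, ev_eq, ev_ren, Nat.reduceAdd, Nat.reduceSub, cons_zero,
    cons_succ, e1, e2, e3]
  · refine fun a b h h' => hf (ZFSet.ext fun z => ⟨fun hz => ?_, fun hz => ?_⟩)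
    · obtain ⟨t, rfl⟩ := el hz
      exact h t hz
    · obtain ⟨t, rfl⟩ := el hz
      exact h' t hz
  · intro a h
    obtain ⟨y, h1, h2⟩ := ZFSet.regularity (f a) fun e => h fun z => by simp [e]
    obtain ⟨t, rfl⟩ := el h1
    exact ⟨t, h1, fun z hz hz' => by
      have : f z ∈ f a ∩ f t := ZFSet.mem_inter.2 ⟨hz', hz⟩
      simp [h2] at this⟩
  · intro a b
    obtain ⟨c, hc⟩ := (hr _).1 (hM.pair _ (hm a) _ (hm b))
    exact ⟨c, by simp [hc]⟩
  · intro a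
    obtain ⟨c, hc⟩ := (hr _).1 (hM.union _ (hm a))
    exact ⟨c, fun x hx z hz => hc ▸ ZFSet.mem_sUnion.2 ⟨_, hx, hz⟩⟩
  · intro a
    obtain ⟨y, hy, h⟩ := hM.power _ (hm a)
    obtain ⟨c, rfl⟩ := (hr _).1 hy
    refine ⟨c, fun x hx => h _ (hm x) fun z hz => ?_⟩
    obtain ⟨t, rfl⟩ := el hz
    exact hx t hz
  · obtain ⟨o, ho⟩ := (hr _).1 hM.inf
    obtain ⟨z, hz⟩ := el (ho ▸ ZFSet.omega_zero : ∅ ∈ f o)
    refine ⟨o, ⟨z, by rw [hz, ho]; exact ZFSet.omega_zero, by simp [hz]⟩, fun a ha => ?_⟩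
    have h1 : insert (f a) (f a) ∈ f o := by
      rw [ho] at ha ⊢
      exact ZFSet.omega_succ ha
    obtain ⟨b, hb⟩ := el h1
    exact ⟨b, hb ▸ h1, fun z => by simp [hb, hf.eq_iff, or_comm]⟩
  · rename_i φ
    intro a
    obtain ⟨e, h1, h2, -⟩ := ev_list hf hr φ v
    obtain ⟨b, hb, h⟩ := hM.sep φ e h1 _ (hm a)
    obtain ⟨c, rfl⟩ := (hr _).1 hb
    exact ⟨c, fun x => by rw [h, h2]⟩
  · rename_i φ
    intro a h
    obtain ⟨e, h1, -, h2⟩ := ev_list hf hr φ v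
    obtain ⟨b, hb, h'⟩ := hM.coll φ e h1 _ (hm a) fun x hx => by
      obtain ⟨t, rfl⟩ := el hx
      obtain ⟨y, hy⟩ := h t hx
      exact ⟨_, hm y, (h2 _ _).1 hy⟩
    obtain ⟨c, rfl⟩ := (hr _).1 hb
    refine ⟨c, fun x hx => ?_⟩
    obtain ⟨y, hy, h''⟩ := h' _ hx
    obtain ⟨t, rfl⟩ := el hy
    exact ⟨t, hy, (h2 _ _).2 h''⟩
  · intro a h h'
    obtain ⟨c, hc, h''⟩ := hM.choice _ (hm a) (fun x hx => by
      obtain ⟨t, rfl⟩ := el hx
      by_contra hn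
      exact h t hx fun z hz => hn ⟨_, hz⟩) fun x hx x' hx' y hy hy' => by
      obtain ⟨t, rfl⟩ := el hx
      obtain ⟨t', rfl⟩ := el hx'
      obtain ⟨u, rfl⟩ := el hy
      rw [h' t hx t' hx' u hy hy']
    obtain ⟨c, rfl⟩ := (hr _).1 hc
    refine ⟨c, fun x hx => ?_⟩
    obtain ⟨y, ⟨h1, h2⟩, h3⟩ := h'' _ hx
    obtain ⟨t, rfl⟩ := el h1
    exact ⟨t, h1, h2, fun y' a b => hf (h3 _ ⟨a, b⟩)⟩

end

theorem exists_ctm_notNecReg : (∃ M : ZFSet.{0}, IsCTM M ∧ Sat M (notNecReg 0) []) ∧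
    ¬ Prf [] (neg notNecReg 0) := by
  obtain ⟨M, X, W, hM, hX, hW, h0, h1, h2⟩ := Pool.Agent.Lib.MP_028983_lc.Reg.exists_model
  obtain ⟨T, f, hf, hr⟩ : ∃ (T : Type) (f : T → ZFSet.{0}), Function.Injective f ∧
      ∀ x, x ∈ M ↔ ∃ t, f t = x :=
    ⟨Shrink.{0} M, fun a => ((equivShrink M).symm a).1,
      Subtype.val_injective.comp (equivShrink M).symm.injective, fun x =>
        ⟨fun hx => ⟨equivShrink M ⟨x, hx⟩, by simp⟩,
          fun ⟨t, ht⟩ => ht ▸ ((equivShrink M).symm t).2⟩⟩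
  obtain ⟨X, rfl⟩ := (hr _).1 hX
  obtain ⟨W, rfl⟩ := (hr _).1 hW
  obtain ⟨o, ho⟩ := (hr _).1 hM.inf
  let _ : Mod T := ⟨fun a b => f a ∈ f b, fun _ => X, ctm_model hM hf hr⟩
  have hm : ∀ a b : T, a ∈ b ↔ f a ∈ f b := fun _ _ => Iff.rfl
  have el : ∀ {a : T} {x : ZFSet.{0}}, x ∈ f a → ∃ t, f t = x := fun {a x} hx =>
    (hr x).1 (hM.trans _ ((hr _).2 ⟨a, rfl⟩) hx)
  have ex : ∀ (a : T) (x : ZFSet.{0}), (∀ y ∈ x, ∃ t, f t = y) → (∀ t, t ∈ a ↔ f t ∈ x) →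
      f a = x := fun a x b c => ZFSet.ext fun y => ⟨fun hy => by
    obtain ⟨t, rfl⟩ := el hy
    exact (c t).1 hy, fun hy => by
    obtain ⟨t, rfl⟩ := b y hy
    exact (c t).2 hy⟩
  have f0 : f ∅ = ∅ := ex _ _ (by simp) (by simp)
  have fu : ∀ a b : T, f (up a b) = {f a, f b} := fun a b =>
    ex _ _ (by simp) (by simp [hf.eq_iff])
  have fo : ∀ a b : T, f (op a b) = ZFSet.pair (f a) (f b) := fun a b => by
    rw [op, fu, fu, fu, ZFSet.pair_eq_singleton]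
    rfl
  have fs' : ∀ a : T, f (sc a) = insert (f a) (f a) := fun a =>
    ex _ _ (fun y hy => (ZFSet.mem_insert_iff.1 hy).elim (fun e => ⟨a, e.symm⟩) el)
      (fun t => by rw [m_sc, ZFSet.mem_insert_iff, hf.eq_iff, or_comm, hm])
  have o1 : om T ⊆ o := fun n hn => m_om.1 hn o
    (by rw [hm, f0, ho]; exact ZFSet.omega_zero)
    fun a ha => by rw [hm, ho] at ha ⊢; rw [fs']; exact ZFSet.omega_succ ha
  have o2 : ∀ n : ℕ, ∃ t ∈ om T, f t = (n : Ordinal.{0}).toZFSet := fun n => by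
    induction n with
    | zero => exact ⟨∅, emp_om, by simp [f0]⟩
    | succ n ih =>
      obtain ⟨t, a, b⟩ := ih
      exact ⟨sc t, sc_om a, by rw [fs', b, Nat.cast_succ, Ordinal.toZFSet_add_one]⟩
  have li : ∀ A B : T, Le A B → ∃ γ ∈ M, Pool.Agent.Lib.MP_028983_lc.Reg.Inj γ (f A) (f B) :=
    fun A B h => by
      obtain ⟨g, g1, g2⟩ := s_le.2 h
      refine ⟨f g, (hr _).2 ⟨g, rfl⟩, fun a ha => ?_, fun a a' b c c' => ?_⟩
      · obtain ⟨a, rfl⟩ := el ha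
        obtain ⟨b, b1, b2⟩ := g1 a ha
        exact ⟨f b, b1, fo a b ▸ b2⟩
      · have pr : ∀ {x y : ZFSet.{0}}, ZFSet.pair x y ∈ f g → (∃ t, f t = x) ∧ ∃ t, f t = y :=
          fun {x y} hp => by
            obtain ⟨p, hp'⟩ := el hp
            obtain ⟨u, hu⟩ := el (hp' ▸ (by simp [ZFSet.pair] :
              ({x, y} : ZFSet.{0}) ∈ ZFSet.pair x y) : ({x, y} : ZFSet.{0}) ∈ f p)
            exact ⟨el (a := u) (by simp [hu]), el (a := u) (by simp [hu])⟩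
        obtain ⟨⟨a, rfl⟩, b, rfl⟩ := pr c
        obtain ⟨⟨a', rfl⟩, -⟩ := pr c'
        rw [← fo] at c c'
        rw [(g2 _ _ _ _ c c').2 rfl]
  have hX' : X ⊆ pw (om T) := fun x hx => m_pw.2 fun y hy => by
    obtain ⟨n, hn⟩ := h0 _ hx _ hy
    obtain ⟨t, a, b⟩ := o2 n
    exact hf (b.trans hn) ▸ a
  have key : Ev Mod.E (notNecReg 0) fun _ => (∅ : T) := by
    refine ev_notNecReg hX' (W := W) (fun h => ?_) (fun h => ?_) _
    · obtain ⟨γ, a, b⟩ := li _ _ (h.trans (le_of_sub o1))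
      exact h1 γ a (ho ▸ b)
    · obtain ⟨γ, a, b⟩ := li _ _ h
      exact h2 γ a b
  obtain ⟨n, hn⟩ := ev_sat hf hr (notNecReg 0)
  exact ⟨⟨M, hM, (hn _ [] fun i _ => f0.symm).1 key⟩,
    fun h => h.sound Mod.ax (fun _ => ∅) (by simp) key⟩

end Pool.Agent.Lib.MP_60e7f9_lc.Prov
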